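import Pool.Agent.R654.LS.Neg

/-!
# MP_7f7a01_al : the threshold constant of linear soficity is one half, over every field

`Pool.Agent.R654.LS.dRank A B` is the normalised rank of `A - B`, and
`Pool.Agent.R654.LS.Approximable K ε G` is `ε`-approximability of the group `G` over the field `K`
(with `1 ≤ n`).
-/

set_option autoImplicit false

namespace Pool.Agent.Results.MP_7f7a01_al.HalfThreshold

open Pool.Agent.R654.LS

universe u v

/-- Over every field `K`, the classes of `ε`-approximable groups coincide for all `0 < ε ≤ 1/2`,
and for every `ε > 1/2` the class of `ε`-approximable groups is strictly smaller: the countably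
infinite elementary abelian `2`-group is linear sofic (even `1/2`-approximable) over `K` and is not
`ε`-approximable over `K` for any `ε > 1/2`. -/
theorem result (K : Type u) [Field K] :
    (∀ ε : ℝ, 0 < ε → ε ≤ 1 / 2 → ∀ (G : Type v) [Group G],
      (Approximable K ε G ↔ Approximable K (1 / 4) G)) ∧
    Countable (Multiplicative (ℕ →₀ ZMod 2)) ∧
    Approximable K (1 / 2) (Multiplicative (ℕ →₀ ZMod 2)) ∧
    Approximable K (1 / 4) (Multiplicative (ℕ →₀ ZMod 2)) ∧
    ∀ ε : ℝ, 1 / 2 < ε → ¬ Approximable K ε (Multiplicative (ℕ →₀ ZMod 2)) := by
  have hc : Countable (ℕ →₀ ZMod 2) := by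
    have : Countable (ZMod 2) := inferInstanceAs (Countable (Fin 2))
    infer_instance
  refine ⟨?_, hc, approximable_G0, approximable_G0.mono (by norm_num), ?_⟩
  · intro ε h0 h1 G _
    constructor
    · intro h
      exact (amplify h0 h).mono (by norm_num)
    · intro h
      exact (amplify (by norm_num) h).mono h1
  · intro ε hε
    exact not_approximable hε

end Pool.Agent.Results.MP_7f7a01_al.HalfThreshold
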